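import Pool.Agent.W845.DH.Stm

set_option autoImplicit false
open scoped Classical
open scoped BigOperators

namespace Pool.Agent.W409.DH

open Pool.Agent.W845.DH

noncomputable section

variable {V : Type}

lemma od_split [Fintype V] (D : V → V → Prop) (v : V) (X : Finset V) :
    od D v X + od D v Xᶜ = od D v Finset.univ := by
  unfold od
  rw [← Finset.card_union_of_disjoint]
  · congr 1
    ext w
    simp only [Finset.mem_union, Finset.mem_filter, Finset.mem_compl, Finset.mem_univ, true_and]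
    tauto
  · rw [Finset.disjoint_left]
    intro a ha hb
    simp only [Finset.mem_filter, Finset.mem_compl] at ha hb
    exact hb.1 ha.1

lemma od_neg (D : V → V → Prop) (v : V) (X : Finset V) :
    od D v X + od (fun a b => ¬ D a b) v X = X.card := by
  unfold od
  rw [← Finset.card_union_of_disjoint]
  · apply congrArg
    ext w
    simp only [Finset.mem_union, Finset.mem_filter]
    tauto
  · rw [Finset.disjoint_left]
    intro a ha hb
    simp only [Finset.mem_filter] at ha hb
    exact hb.2 ha.2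

lemma od_le (D : V → V → Prop) (v : V) (X : Finset V) : od D v X ≤ X.card :=
  Finset.card_filter_le _ _

lemma ee_sum (D : V → V → Prop) (X Y : Finset V) : ee D X Y = ∑ x ∈ X, od D x Y := by
  unfold ee od
  rw [Finset.card_filter, Finset.sum_product]
  apply Finset.sum_congr rfl
  intro x _
  rw [Finset.card_filter]

lemma ee_rev (D : V → V → Prop) (X Y : Finset V) : ee (fun a b => D b a) Y X = ee D X Y := by
  rw [ee_sum, ee_sum]
  unfold od
  simp only [Finset.card_filter]
  rw [Finset.sum_comm]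

lemma mis_eq (D : V → V → Prop) (X Y : Finset V) :
    mis D X Y = ee (fun a b => ¬ D a b) X Y := by
  unfold mis ee
  apply congrArg
  ext e
  simp only [Finset.mem_filter]

lemma ee_add (D : V → V → Prop) (X Y : Finset V) :
    ee D X Y + ee (fun a b => ¬ D a b) X Y = X.card * Y.card := by
  rw [ee_sum, ee_sum, ← Finset.sum_add_distrib]
  rw [Finset.sum_congr rfl (fun x _ => od_neg D x Y)]
  simp

lemma od_diff (D : V → V → Prop) (v : V) (A B : Finset V) :
    od D v A ≤ od D v B + (A \ B).card := by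
  unfold od
  calc (A.filter (fun w => D v w)).card
      ≤ (B.filter (fun w => D v w) ∪ (A \ B)).card := by
        apply Finset.card_le_card
        intro w hw
        simp only [Finset.mem_union, Finset.mem_filter, Finset.mem_sdiff] at hw ⊢
        tauto
    _ ≤ _ := Finset.card_union_le _ _

lemma ee_diff [Fintype V] (D : V → V → Prop) (A B A' B' : Finset V) :
    ee D A' B' ≤ ee D A B + (A' \ A).card * Fintype.card V + (B' \ B).card * Fintype.card V := by
  unfold ee
  calc ((A' ×ˢ B').filter (fun e => D e.1 e.2)).card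
      ≤ (((A ×ˢ B).filter (fun e => D e.1 e.2) ∪ ((A' \ A) ×ˢ (Finset.univ : Finset V))) ∪
          ((Finset.univ : Finset V) ×ˢ (B' \ B))).card := by
        apply Finset.card_le_card
        intro w hw
        simp only [Finset.mem_union, Finset.mem_filter, Finset.mem_sdiff, Finset.mem_product,
          Finset.mem_univ, and_true, true_and] at hw ⊢
        tauto
    _ ≤ ((A ×ˢ B).filter (fun e => D e.1 e.2) ∪ ((A' \ A) ×ˢ (Finset.univ : Finset V))).card +
          ((Finset.univ : Finset V) ×ˢ (B' \ B)).card := Finset.card_union_le _ _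
    _ ≤ (((A ×ˢ B).filter (fun e => D e.1 e.2)).card +
          ((A' \ A) ×ˢ (Finset.univ : Finset V)).card) +
          ((Finset.univ : Finset V) ×ˢ (B' \ B)).card :=
        Nat.add_le_add_right (Finset.card_union_le _ _) _
    _ = _ := by
        rw [Finset.card_product, Finset.card_product, Finset.card_univ]
        ring

/-- First bounds. -/
lemma first [Fintype V] (γ : ℝ) (R : V → V → Prop) (A B : Finset V) (hn : 0 < Fintype.card V)
    (h0 : 0 < γ) (h1 : γ ≤ 1 / 1000)
    (hd : ∀ v, (1 / 2 - γ) * (Fintype.card V : ℝ) ≤ (od R v Finset.univ : ℝ))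
    (hA : (1 / 2 - γ) * (Fintype.card V : ℝ) ≤ (A.card : ℝ))
    (hB : (1 / 2 - γ) * (Fintype.card V : ℝ) ≤ (B.card : ℝ))
    (he : (ee R A B : ℝ) ≤ γ * (Fintype.card V : ℝ) ^ 2) :
    (1 / 2 - 5 * γ) * (Fintype.card V : ℝ) ≤ ((Bᶜ).card : ℝ) ∧
    (ee (fun a b => ¬ R a b) A Bᶜ : ℝ) ≤ 3 * γ * (Fintype.card V : ℝ) ^ 2 := by
  have hn' : (0 : ℝ) < (Fintype.card V : ℝ) := by exact_mod_cast hn
  set n : ℝ := (Fintype.card V : ℝ) with hndef
  have hAn : (A.card : ℝ) ≤ n := by
    rw [hndef]; exact_mod_cast Finset.card_le_univ A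
  have hBc : ((Bᶜ).card : ℝ) = n - B.card := by
    rw [Finset.card_compl, Nat.cast_sub (Finset.card_le_univ B)]
  have hlow : (A.card : ℝ) * ((1 / 2 - γ) * n) ≤ (ee R A B : ℝ) + (ee R A Bᶜ : ℝ) := by
    rw [ee_sum, ee_sum]
    push_cast
    rw [← Finset.sum_add_distrib]
    calc (A.card : ℝ) * ((1 / 2 - γ) * n) = ∑ x ∈ A, ((1 / 2 - γ) * n) := by
          rw [Finset.sum_const, nsmul_eq_mul]
      _ ≤ _ := by
          apply Finset.sum_le_sum
          intro x _
          have h := od_split R x B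
          have h' := hd x
          rw [← h] at h'
          push_cast at h'
          exact h'
  have htot : (ee R A Bᶜ : ℝ) + (ee (fun a b => ¬ R a b) A Bᶜ : ℝ) = A.card * (Bᶜ).card := by
    exact_mod_cast ee_add R A Bᶜ
  have hm0 : (0 : ℝ) ≤ (ee (fun a b => ¬ R a b) A Bᶜ : ℝ) := Nat.cast_nonneg _
  have hA4 : n / 4 ≤ (A.card : ℝ) := by nlinarith
  constructor
  · -- |A| (|Bc| - (1/2 - γ) n) ≥ - γ n^2 ≥ - 4 γ n |A|
    have hApos : (0 : ℝ) < (A.card : ℝ) := by linarith
    have h4 : γ * n ^ 2 ≤ (A.card : ℝ) * (4 * γ * n) := by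
      have := mul_le_mul_of_nonneg_right hA4 (by positivity : (0 : ℝ) ≤ 4 * γ * n)
      nlinarith
    have h5 : (A.card : ℝ) * ((1 / 2 - γ) * n - 4 * γ * n) ≤ (A.card : ℝ) * ((Bᶜ).card : ℝ) := by
      nlinarith
    have h6 := le_of_mul_le_mul_left h5 hApos
    linarith
  · have h7 : ((Bᶜ).card : ℝ) - (1 / 2 - γ) * n ≤ 2 * γ * n := by
      rw [hBc]; linarith
    have h8 : (A.card : ℝ) * (((Bᶜ).card : ℝ) - (1 / 2 - γ) * n) ≤ n * (2 * γ * n) := by
      calc (A.card : ℝ) * (((Bᶜ).card : ℝ) - (1 / 2 - γ) * n)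
          ≤ (A.card : ℝ) * (2 * γ * n) := mul_le_mul_of_nonneg_left h7 (Nat.cast_nonneg _)
        _ ≤ n * (2 * γ * n) := mul_le_mul_of_nonneg_right hAn (by positivity)
    nlinarith

/-- The cleaned set. -/
def cln [Fintype V] (R : V → V → Prop) (A B : Finset V) : Finset V :=
  Finset.univ.filter (fun v => (v ∈ A ∧ (Fintype.card V : ℝ) / 8 ≤ (od R v Bᶜ : ℝ)) ∨
    (v ∉ A ∧ (od R v B : ℝ) < (Fintype.card V : ℝ) / 8))

lemma second [Fintype V] (γ : ℝ) (R : V → V → Prop) (A B : Finset V) (hn : 0 < Fintype.card V)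
    (h0 : 0 < γ) (h1 : γ ≤ 1 / 1000)
    (hd : ∀ v, (1 / 2 - γ) * (Fintype.card V : ℝ) ≤ (od R v Finset.univ : ℝ))
    (hB : (1 / 2 - γ) * (Fintype.card V : ℝ) ≤ (B.card : ℝ))
    (he : (ee R A B : ℝ) ≤ γ * (Fintype.card V : ℝ) ^ 2)
    (hm : (ee (fun a b => ¬ R a b) Aᶜ B : ℝ) ≤ 3 * γ * (Fintype.card V : ℝ) ^ 2) :
    ((A \ cln R A B).card : ℝ) ≤ 4 * γ * (Fintype.card V : ℝ) ∧
    ((cln R A B \ A).card : ℝ) ≤ 12 * γ * (Fintype.card V : ℝ) ∧
    (∀ v ∈ cln R A B, (Fintype.card V : ℝ) / 8 ≤ (od R v Bᶜ : ℝ)) ∧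
    (∀ v ∉ cln R A B, (Fintype.card V : ℝ) / 8 ≤ (od R v B : ℝ)) := by
  have hn' : (0 : ℝ) < (Fintype.card V : ℝ) := by exact_mod_cast hn
  have hsp : ∀ v, (1 / 2 - γ) * (Fintype.card V : ℝ) ≤ (od R v B : ℝ) + (od R v Bᶜ : ℝ) := by
    intro v
    have h := od_split R v B
    have h' := hd v
    rw [← h] at h'
    push_cast at h'
    exact h'
  have hmem : ∀ v, v ∈ cln R A B ↔ (v ∈ A ∧ (Fintype.card V : ℝ) / 8 ≤ (od R v Bᶜ : ℝ)) ∨
    (v ∉ A ∧ (od R v B : ℝ) < (Fintype.card V : ℝ) / 8) := by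
    intro v
    unfold cln
    simp only [Finset.mem_filter, Finset.mem_univ, true_and]
  set n : ℝ := (Fintype.card V : ℝ) with hndef
  have hg : γ * n ≤ n / 1000 := by
    have := mul_le_mul_of_nonneg_right h1 hn'.le
    linarith
  refine ⟨?_, ?_, ?_, ?_⟩
  · have h2 : ((A \ cln R A B).card : ℝ) * (n / 4) ≤ (ee R A B : ℝ) := by
      rw [ee_sum]
      push_cast
      calc ((A \ cln R A B).card : ℝ) * (n / 4) = ∑ x ∈ A \ cln R A B, n / 4 := by
            rw [Finset.sum_const, nsmul_eq_mul]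
        _ ≤ ∑ x ∈ A \ cln R A B, (od R x B : ℝ) := by
            apply Finset.sum_le_sum
            intro x hx
            rw [Finset.mem_sdiff, hmem] at hx
            have h3 : (od R x Bᶜ : ℝ) < n / 8 := by
              by_contra hcon
              push Not at hcon
              exact hx.2 (Or.inl ⟨hx.1, hcon⟩)
            have h4 := hsp x
            linarith
        _ ≤ ∑ x ∈ A, (od R x B : ℝ) := by
            apply Finset.sum_le_sum_of_subset_of_nonneg Finset.sdiff_subset
            intro i _ _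
            exact Nat.cast_nonneg _
    have h3 : ((A \ cln R A B).card : ℝ) * (n / 4) ≤ (4 * γ * n) * (n / 4) := by
      calc _ ≤ _ := h2
        _ ≤ _ := he
        _ = _ := by ring
    exact le_of_mul_le_mul_right h3 (by positivity)
  · have h2 : ((cln R A B \ A).card : ℝ) * (n / 4) ≤ (ee (fun a b => ¬ R a b) Aᶜ B : ℝ) := by
      rw [ee_sum]
      push_cast
      calc ((cln R A B \ A).card : ℝ) * (n / 4) = ∑ x ∈ cln R A B \ A, n / 4 := by
            rw [Finset.sum_const, nsmul_eq_mul]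
        _ ≤ ∑ x ∈ cln R A B \ A, (od (fun a b => ¬ R a b) x B : ℝ) := by
            apply Finset.sum_le_sum
            intro x hx
            rw [Finset.mem_sdiff, hmem] at hx
            have h3 : (od R x B : ℝ) < n / 8 := by
              rcases hx.1 with h | h
              · exact absurd h.1 hx.2
              · exact h.2
            have h4 : (od R x B : ℝ) + (od (fun a b => ¬ R a b) x B : ℝ) = B.card := by
              exact_mod_cast od_neg R x B
            linarith
        _ ≤ ∑ x ∈ Aᶜ, (od (fun a b => ¬ R a b) x B : ℝ) := by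
            apply Finset.sum_le_sum_of_subset_of_nonneg
            · intro x hx
              rw [Finset.mem_sdiff] at hx
              rw [Finset.mem_compl]
              exact hx.2
            · intro i _ _
              exact Nat.cast_nonneg _
    have h3 : ((cln R A B \ A).card : ℝ) * (n / 4) ≤ (12 * γ * n) * (n / 4) := by
      calc _ ≤ _ := h2
        _ ≤ _ := hm
        _ = _ := by ring
    exact le_of_mul_le_mul_right h3 (by positivity)
  · intro v hv
    rw [hmem] at hv
    rcases hv with h | h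
    · exact h.2
    · have h4 := hsp v
      linarith [h.2]
  · intro v hv
    rw [hmem] at hv
    by_cases hA : v ∈ A
    · have h3 : (od R v Bᶜ : ℝ) < n / 8 := by
        by_contra hcon
        push Not at hcon
        exact hv (Or.inl ⟨hA, hcon⟩)
      have h4 := hsp v
      linarith
    · by_contra hcon
      push Not at hcon
      exact hv (Or.inr ⟨hA, hcon⟩)

lemma card_bd (A S : Finset V) (a b : ℝ) (h1 : ((A \ S).card : ℝ) ≤ a)
    (h2 : ((S \ A).card : ℝ) ≤ b) :
    (A.card : ℝ) - a ≤ S.card ∧ (S.card : ℝ) ≤ A.card + b := by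
  have e1 : ((A \ S).card : ℝ) + ((A ∩ S).card : ℝ) = A.card := by
    exact_mod_cast Finset.card_sdiff_add_card_inter A S
  have e2 : ((S \ A).card : ℝ) + ((S ∩ A).card : ℝ) = S.card := by
    exact_mod_cast Finset.card_sdiff_add_card_inter S A
  rw [Finset.inter_comm] at e2
  constructor <;> linarith

theorem st1 : S_ST1 := by
  intro V _ γ D X Y h0 h1 hdeg hX hY he
  by_cases hn : 0 < Fintype.card V
  swap
  · have hn0 : Fintype.card V = 0 := by omega
    have : IsEmpty V := Fintype.card_eq_zero_iff.mp hn0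
    refine ⟨∅, ∅, ⟨?_, ?_, ?_, ?_, ?_⟩, ?_, ?_⟩
    · intro v; exact (IsEmpty.false v).elim
    · intro v; exact (IsEmpty.false v).elim
    · intro v; exact (IsEmpty.false v).elim
    · intro v; exact (IsEmpty.false v).elim
    · unfold mis
      simp [hn0]
    · simp [hn0]
    · simp [hn0]
  have hn' : (0 : ℝ) < (Fintype.card V : ℝ) := by exact_mod_cast hn
  let D' : V → V → Prop := fun a b => D b a
  have hd1 : ∀ v, (1 / 2 - γ) * (Fintype.card V : ℝ) ≤ (od D v Finset.univ : ℝ) :=
    fun v => (hdeg v).1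
  have hd2 : ∀ v, (1 / 2 - γ) * (Fintype.card V : ℝ) ≤ (od D' v Finset.univ : ℝ) :=
    fun v => (hdeg v).2
  have he' : (ee D' Y X : ℝ) ≤ γ * (Fintype.card V : ℝ) ^ 2 := by
    have : ee D' Y X = ee D X Y := ee_rev D X Y
    rw [this]; exact he
  obtain ⟨a1, a2⟩ := first γ D X Y hn h0 h1 hd1 hX hY he
  obtain ⟨b1, b2⟩ := first γ D' Y X hn h0 h1 hd2 hY hX he'
  have b2' : (ee (fun a b => ¬ D a b) Xᶜ Y : ℝ) ≤ 3 * γ * (Fintype.card V : ℝ) ^ 2 := by
    have : ee (fun a b => ¬ D' a b) Y Xᶜ = ee (fun a b => ¬ D a b) Xᶜ Y :=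
      ee_rev (fun a b => ¬ D a b) Xᶜ Y
    rw [← this]; exact b2
  have a2' : (ee (fun a b => ¬ D' a b) Yᶜ X : ℝ) ≤ 3 * γ * (Fintype.card V : ℝ) ^ 2 := by
    have : ee (fun a b => ¬ D' a b) Yᶜ X = ee (fun a b => ¬ D a b) X Yᶜ :=
      ee_rev (fun a b => ¬ D a b) X Yᶜ
    rw [this]; exact a2
  obtain ⟨c1, c2, c3, c4⟩ := second γ D X Y hn h0 h1 hd1 hY he b2'
  obtain ⟨d1, d2, d3, d4⟩ := second γ D' Y X hn h0 h1 hd2 hX he' a2'
  set S := cln D X Y with hS
  set T := cln D' Y X with hT
  have hg : γ * (Fintype.card V : ℝ) ≤ (Fintype.card V : ℝ) / 1000 := by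
    have := mul_le_mul_of_nonneg_right h1 hn'.le
    linarith
  have hXc : ((Xᶜ).card : ℝ) = (Fintype.card V : ℝ) - X.card := by
    rw [Finset.card_compl, Nat.cast_sub (Finset.card_le_univ X)]
  have hYc : ((Yᶜ).card : ℝ) = (Fintype.card V : ℝ) - Y.card := by
    rw [Finset.card_compl, Nat.cast_sub (Finset.card_le_univ Y)]
  have cc : ∀ A B : Finset V, Aᶜ \ Bᶜ = B \ A := by
    intro A B
    ext v
    simp only [Finset.mem_sdiff, Finset.mem_compl]
    tauto
  refine ⟨S, T, ⟨?_, ?_, ?_, ?_, ?_⟩, ?_, ?_⟩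
  · intro v hv
    have h2 := c3 v hv
    have h3 : (od D v Yᶜ : ℝ) ≤ (od D v Tᶜ : ℝ) + ((T \ Y).card : ℝ) := by
      have := od_diff D v Yᶜ Tᶜ
      rw [cc] at this
      exact_mod_cast this
    linarith
  · intro v hv
    have h2 := c4 v hv
    have h3 : (od D v Y : ℝ) ≤ (od D v T : ℝ) + ((Y \ T).card : ℝ) := by
      exact_mod_cast od_diff D v Y T
    linarith
  · intro v hv
    have h2 := d3 v hv
    have h3 : (od D' v Xᶜ : ℝ) ≤ (od D' v Sᶜ : ℝ) + ((S \ X).card : ℝ) := by
      have := od_diff D' v Xᶜ Sᶜ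
      rw [cc] at this
      exact_mod_cast this
    have h4 : (idg D v Sᶜ : ℝ) = (od D' v Sᶜ : ℝ) := rfl
    rw [h4]
    linarith
  · intro v hv
    have h2 := d4 v hv
    have h3 : (od D' v X : ℝ) ≤ (od D' v S : ℝ) + ((X \ S).card : ℝ) := by
      exact_mod_cast od_diff D' v X S
    have h4 : (idg D v S : ℝ) = (od D' v S : ℝ) := rfl
    rw [h4]
    linarith
  · rw [mis_eq, mis_eq]
    have h2 : (ee (fun a b => ¬ D a b) S Tᶜ : ℝ) ≤ (ee (fun a b => ¬ D a b) X Yᶜ : ℝ) +
        (S \ X).card * (Fintype.card V : ℝ) + (Y \ T).card * (Fintype.card V : ℝ) := by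
      have := ee_diff (fun a b => ¬ D a b) X Yᶜ S Tᶜ
      rw [cc] at this
      exact_mod_cast this
    have h3 : (ee (fun a b => ¬ D a b) Sᶜ T : ℝ) ≤ (ee (fun a b => ¬ D a b) Xᶜ Y : ℝ) +
        (X \ S).card * (Fintype.card V : ℝ) + (T \ Y).card * (Fintype.card V : ℝ) := by
      have := ee_diff (fun a b => ¬ D a b) Xᶜ Y Sᶜ T
      rw [cc] at this
      exact_mod_cast this
    have e1 := mul_le_mul_of_nonneg_right c2 hn'.le
    have e2 := mul_le_mul_of_nonneg_right d1 hn'.le
    have e3 := mul_le_mul_of_nonneg_right c1 hn'.le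
    have e4 := mul_le_mul_of_nonneg_right d2 hn'.le
    have e5 : 0 ≤ γ * (Fintype.card V : ℝ) ^ 2 := by positivity
    nlinarith
  · obtain ⟨f1, f2⟩ := card_bd X S _ _ c1 c2
    rw [hXc] at b1
    rw [abs_le]
    have : 0 ≤ γ * (Fintype.card V : ℝ) := by positivity
    constructor <;> linarith
  · obtain ⟨f1, f2⟩ := card_bd Y T _ _ d1 d2
    rw [hYc] at a1
    rw [abs_le]
    have : 0 ≤ γ * (Fintype.card V : ℝ) := by positivity
    constructor <;> linarith

end

end Pool.Agent.W409.DH
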